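import Pool.Agent.helper41.HFE.Spec

/-!
# Project HFE (MP_3221a1_ag), row SYM: symmetry
-/

set_option autoImplicit false

open Polynomial Module Pool.Agent.HFN

namespace Pool.Agent.HFE

noncomputable section

/-- the image of `V s t` in the quotient -/
theorem SYM_dim (W : Submodule ℂ AA) (s t : ℕ) :
    finrank ℂ ((V s t).map W.mkQ) + finrank ℂ (V s t ⊓ W : Submodule ℂ AA) = (s + 1) * (t + 1) := by
  have h1 : finrank ℂ (LinearMap.range (W.mkQ.domRestrict (V s t))) + finrank ℂ (LinearMap.ker (W.mkQ.domRestrict (V s t))) = finrank ℂ (V s t) :=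
    LinearMap.finrank_range_add_finrank_ker (K := ℂ) (V := V s t) (V₂ := AA ⧸ W) _
  rw [LinearMap.range_domRestrict, LinearMap.ker_domRestrict, Submodule.ker_mkQ, finrank_V] at h1
  have h2 : finrank ℂ (V s t ⊓ W : Submodule ℂ AA) = finrank ℂ (W.comap (V s t).subtype) := by
    rw [← Submodule.map_comap_subtype, Submodule.finrank_map_subtype_eq]
  rw [h2]
  exact h1

/-- multiplication by `g` on the quotient -/
def SYM_f (φ : AA →ₗ[ℂ] ℂ) (g : AA) : (AA ⧸ ((An φ).restrictScalars ℂ : Submodule ℂ AA)) →ₗ[ℂ] ℂ :=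
  ((An φ).restrictScalars ℂ).liftQ (tw g φ) (fun f hf => by
    rw [LinearMap.mem_ker, tw_apply]
    exact hf g)

theorem SYM_f_mk (φ : AA →ₗ[ℂ] ℂ) (g h : AA) : SYM_f φ g (((An φ).restrictScalars ℂ : Submodule ℂ AA).mkQ h) = φ (g * h) := rfl

def SYM_g (φ : AA →ₗ[ℂ] ℂ) : AA →ₗ[ℂ] Module.Dual ℂ (AA ⧸ ((An φ).restrictScalars ℂ : Submodule ℂ AA)) where
  toFun g := SYM_f φ g
  map_add' g g' := by
    refine LinearMap.ext fun x => ?_
    obtain ⟨h, rfl⟩ := Submodule.mkQ_surjective _ x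
    rw [LinearMap.add_apply, SYM_f_mk, SYM_f_mk, SYM_f_mk, add_mul, map_add]
  map_smul' c g := by
    refine LinearMap.ext fun x => ?_
    obtain ⟨h, rfl⟩ := Submodule.mkQ_surjective _ x
    rw [LinearMap.smul_apply, SYM_f_mk, SYM_f_mk, smul_mul_assoc, map_smul]
    rfl

def SYM_T (φ : AA →ₗ[ℂ] ℂ) : (AA ⧸ ((An φ).restrictScalars ℂ : Submodule ℂ AA)) →ₗ[ℂ] Module.Dual ℂ (AA ⧸ ((An φ).restrictScalars ℂ : Submodule ℂ AA)) :=
  ((An φ).restrictScalars ℂ).liftQ (SYM_g φ) (fun f hf => by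
    rw [LinearMap.mem_ker]
    refine LinearMap.ext fun x => ?_
    obtain ⟨h, rfl⟩ := Submodule.mkQ_surjective _ x
    show φ (f * h) = 0
    rw [mul_comm]
    exact hf h)

theorem SYM_T_mk (φ : AA →ₗ[ℂ] ℂ) (g h : AA) : SYM_T φ (((An φ).restrictScalars ℂ : Submodule ℂ AA).mkQ g)
    (((An φ).restrictScalars ℂ : Submodule ℂ AA).mkQ h) = φ (g * h) := rfl

theorem SYM_inj (φ : AA →ₗ[ℂ] ℂ) : Function.Injective (SYM_T φ) := by
  rw [← LinearMap.ker_eq_bot, LinearMap.ker_eq_bot']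
  intro x hx
  obtain ⟨g, rfl⟩ := Submodule.mkQ_surjective _ x
  rw [Submodule.mkQ_apply, Submodule.Quotient.mk_eq_zero]
  intro h
  rw [mul_comm, ← SYM_T_mk φ g h, hx]
  rfl

theorem SYM : SYM_stmt := by
  intro φ i j hF hφ s t hs ht
  set W : Submodule ℂ AA := (An φ).restrictScalars ℂ with hW
  have hfin : FiniteDimensional ℂ (AA ⧸ W) := hF
  have h1 := SYM_dim W s t
  have h2 := SYM_dim W (i - s) (j - t)
  have h3 : ((V (i - s) (j - t)).map W.mkQ).map (SYM_T φ) ≤ ((V s t).map W.mkQ).dualAnnihilator := by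
    rintro _ ⟨_, ⟨g, hg, rfl⟩, rfl⟩
    rw [Submodule.mem_dualAnnihilator]
    rintro _ ⟨h, hh, rfl⟩
    have h4 : h * g ∈ V (s + (i - s)) (t + (j - t)) := mul_mem_V hh hg
    rw [Nat.add_sub_cancel' hs, Nat.add_sub_cancel' ht] at h4
    have h5 := SYM_T_mk φ g h
    rw [mul_comm, hφ _ h4] at h5
    exact h5
  have h6 : finrank ℂ (((V (i - s) (j - t)).map W.mkQ).map (SYM_T φ)) = finrank ℂ ((V (i - s) (j - t)).map W.mkQ) :=
    (Submodule.equivMapOfInjective (SYM_T φ) (SYM_inj φ) _).finrank_eq.symm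
  have h7 : finrank ℂ (((V (i - s) (j - t)).map W.mkQ).map (SYM_T φ)) ≤ finrank ℂ ((V s t).map W.mkQ).dualAnnihilator :=
    Submodule.finrank_mono h3
  have h8 : finrank ℂ ((V s t).map W.mkQ) + finrank ℂ ((V s t).map W.mkQ).dualAnnihilator = finrank ℂ (AA ⧸ W) :=
    Subspace.finrank_add_finrank_dualAnnihilator_eq ((V s t).map W.mkQ)
  have h9 : cod (An φ) = finrank ℂ (AA ⧸ W) := rfl
  have h10 : hd (An φ) s t = finrank ℂ (V s t ⊓ W : Submodule ℂ AA) := rfl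
  have h11 : hd (An φ) (i - s) (j - t) = finrank ℂ (V (i - s) (j - t) ⊓ W : Submodule ℂ AA) := rfl
  rw [h9, h10, h11]
  omega

end

end Pool.Agent.HFE
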