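import Pool.Agent.helper41.HFE.Spec

/-!
# Project HFE (MP_3221a1_ag), row UPE: the exact value
-/

set_option autoImplicit false

open Polynomial Module Pool.Agent.HFN

namespace Pool.Agent.HFE

noncomputable section

/-- the multiples of `f` -/
theorem UPE_hd (K : Ideal AA) (f : AA) (i j : ℕ) (hf : f ≠ 0) (hfK : f ∈ K) (ha : dX f ≤ i) (hb : dY f ≤ j)
    (h : ∀ g : AA, g ∈ K → g ∈ V i j → f ∣ g) : hd K i j = (i - dX f + 1) * (j - dY f + 1) := by
  have hinj : Function.Injective (LinearMap.mulLeft ℂ f) := fun x y hxy => mul_left_cancel₀ hf hxy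
  have h1 : (V i j ⊓ K.restrictScalars ℂ : Submodule ℂ AA) = (V (i - dX f) (j - dY f)).map (LinearMap.mulLeft ℂ f) := by
    apply le_antisymm
    · rintro g ⟨hg1, hg2⟩
      obtain ⟨k, rfl⟩ := h g hg2 hg1
      exact ⟨k, mem_V_of_mul hf hg1, rfl⟩
    · rintro _ ⟨k, hk, rfl⟩
      refine ⟨?_, K.mul_mem_right k hfK⟩
      have h2 : f * k ∈ V (dX f + (i - dX f)) (dY f + (j - dY f)) := mul_mem_V ⟨le_rfl, le_rfl⟩ hk
      rw [Nat.add_sub_cancel' ha, Nat.add_sub_cancel' hb] at h2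
      exact h2
  unfold hd
  rw [h1, ← finrank_V]
  exact (Submodule.equivMapOfInjective (LinearMap.mulLeft ℂ f) hinj _).finrank_eq.symm

theorem UPE (hDUA : DUA_stmt) (hDFQ : DFQ_stmt) (hLAF : LAF_stmt) (hDIV : DIV_stmt) (hRNK : RNK_stmt) : UPE_stmt := by
  intro Z i j p q φ f hφ hFu hMn hp hq hall hab
  obtain ⟨hFc, -⟩ := hRNK Z φ hFu.1
  have hfA : f ∈ An φ := hall φ hFu
  have hJ : JJ Z two ≤ An φ := le_An hFu.1
  have hK : JJ Z two ⊔ Ideal.span {f} ≤ An φ := sup_le hJ ((Ideal.span_singleton_le_iff_mem _).2 hfA)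
  have ha : dX f ≤ i := hMn.deg.1.trans hp
  have hb : dY f ≤ j := hMn.deg.2.trans hq
  obtain ⟨hFK, hcod⟩ := hLAF Z f
  have h1 := hDFQ (JJ Z two ⊔ Ideal.span {f}) hFK i j
  rw [hDUA.1 Z i j f hall, hcod] at h1
  have h2 : hd (JJ Z two ⊔ Ideal.span {f}) i j = (i - dX f + 1) * (j - dY f + 1) := by
    refine UPE_hd _ f i j hMn.ne (Ideal.mem_sup_right (Ideal.mem_span_singleton_self f)) ha hb ?_
    intro g hg hgV
    by_contra hnd
    have h3 := hDIV φ i j p q f hFc hφ hFu.2 hMn hp hq g i j (hK hg) hgV (by omega) (by omega) hnd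
    omega
  rw [h2] at h1
  have h3 : df Z i j + (i + 1) * (j + 1) = (i - dX f + 1) * (j - dY f + 1) + La Z f := h1
  have h4 : i + 1 - dX f = i - dX f + 1 := by omega
  have h5 : j + 1 - dY f = j - dY f + 1 := by omega
  have h6 : (i - dX f + 1) * (j - dY f + 1) ≤ (i + 1) * (j + 1) := Nat.mul_le_mul (by omega) (by omega)
  unfold chi
  rw [h4, h5]
  omega

end

end Pool.Agent.HFE
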