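import Pool.Agent.helper41.HFE.SpecD

/-!
# Project HFE (MP_3221a1_ag), row FCX: the irreducible factor with `dX = 1`
-/

set_option autoImplicit false

open Polynomial Module Pool.Agent.HFN

namespace Pool.Agent.HFE

noncomputable section

theorem FCX_unit (g : AA) (hg : g ≠ 0) (hx : dX g = 0) (hy : dY g = 0) : IsUnit g := by
  have h1 : g = C (g.coeff 0) := Polynomial.eq_C_of_natDegree_eq_zero hy
  have h2 : (g.coeff 0).natDegree = 0 := by
    rw [h1, dX_C] at hx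
    exact hx
  have h3 : g.coeff 0 = C ((g.coeff 0).coeff 0) := Polynomial.eq_C_of_natDegree_eq_zero h2
  have h4 : (g.coeff 0).coeff 0 ≠ 0 := by
    intro h5
    apply hg
    rw [h1, h3, h5, C_0, C_0]
  rw [h1, h3]
  exact isUnit_C.2 (isUnit_C.2 (IsUnit.mk0 _ h4))

theorem FCX_ind : ∀ (n : ℕ) (f : AA), dY f ≤ n → f ≠ 0 → dX f = 1 → ∃ g f1 : AA, f = g * f1 ∧ Irreducible g ∧ dX g = 1 ∧ f1 ≠ 0 ∧ dX f1 = 0 := by
  intro n
  induction n with
  | zero =>
    intro f hn hf hx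
    have hnu : ¬ IsUnit f := by
      rintro ⟨u, hu⟩
      have h1 : f * (u⁻¹ : AAˣ) = 1 := by rw [← hu]; exact u.mul_inv
      have h2 : ((u⁻¹ : AAˣ) : AA) ≠ 0 := Units.ne_zero _
      have h3 := dX_mul hf h2
      rw [h1, dX_one, hx] at h3
      omega
    obtain ⟨g, hg, f', rfl⟩ := WfDvdMonoid.exists_irreducible_factor hnu hf
    have hg0 : g ≠ 0 := hg.ne_zero
    have hf0 : f' ≠ 0 := right_ne_zero_of_mul hf
    rw [dX_mul hg0 hf0] at hx
    rw [dY_mul hg0 hf0] at hn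
    rcases Nat.eq_zero_or_pos (dX g) with h0 | h0
    · exact absurd (FCX_unit g hg0 h0 (by omega)) hg.not_isUnit
    · exact ⟨g, f', rfl, hg, by omega, hf0, by omega⟩
  | succ n ih =>
    intro f hn hf hx
    have hnu : ¬ IsUnit f := by
      rintro ⟨u, hu⟩
      have h1 : f * (u⁻¹ : AAˣ) = 1 := by rw [← hu]; exact u.mul_inv
      have h2 : ((u⁻¹ : AAˣ) : AA) ≠ 0 := Units.ne_zero _
      have h3 := dX_mul hf h2
      rw [h1, dX_one, hx] at h3
      omega
    obtain ⟨g, hg, f', rfl⟩ := WfDvdMonoid.exists_irreducible_factor hnu hf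
    have hg0 : g ≠ 0 := hg.ne_zero
    have hf0 : f' ≠ 0 := right_ne_zero_of_mul hf
    rw [dX_mul hg0 hf0] at hx
    rw [dY_mul hg0 hf0] at hn
    rcases Nat.eq_zero_or_pos (dX g) with h0 | h0
    · have h1 : dY g ≠ 0 := fun h2 => hg.not_isUnit (FCX_unit g hg0 h0 h2)
      obtain ⟨g', f'', h3, h4, h5, h6, h7⟩ := ih f' (by omega) hf0 (by omega)
      refine ⟨g', g * f'', ?_, h4, h5, mul_ne_zero hg0 h6, ?_⟩
      · rw [h3]
        ring
      · rw [dX_mul hg0 h6, h0, h7]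
    · exact ⟨g, f', rfl, hg, by omega, hf0, by omega⟩

theorem FCX : FCX_stmt := fun f hf hx => FCX_ind (dY f) f le_rfl hf hx

end

end Pool.Agent.HFE
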